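import Pool.Agent.H25.GD.Targets

/-! # Integrals of averages over boxes (row V_BXI) -/

set_option autoImplicit false

namespace Pool.Agent.H33.GD

open MeasureTheory Set Filter Topology Pool.Agent.H44.DU

lemma bxi_mp (t : ℝ) :
    MeasurePreserving (fun z : ℂ => (xi t z, z.im)) (volume : Measure ℂ)
      ((volume : Measure ℝ).prod (volume : Measure ℝ)) := by
  have h1 : MeasurePreserving Complex.measurableEquivRealProd (volume : Measure ℂ)
      ((volume : Measure ℝ).prod (volume : Measure ℝ)) :=
    Complex.volume_preserving_equiv_real_prod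
  have h2 : MeasurePreserving (fun p : ℝ × ℝ => (p.1, p.2 - t * p.1))
      ((volume : Measure ℝ).prod (volume : Measure ℝ))
      ((volume : Measure ℝ).prod (volume : Measure ℝ)) :=
    (MeasurePreserving.id (volume : Measure ℝ)).skew_product
      (g := fun a c => c - t * a) (by fun_prop)
      (Filter.Eventually.of_forall fun a =>
        (measurePreserving_sub_right (volume : Measure ℝ) (t * a)).map_eq)
  have h3 : MeasurePreserving (Prod.swap : ℝ × ℝ → ℝ × ℝ)
      ((volume : Measure ℝ).prod (volume : Measure ℝ))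
      ((volume : Measure ℝ).prod (volume : Measure ℝ)) := Measure.measurePreserving_swap
  exact h3.comp (h2.comp (h3.comp h1))

/-- the integral of the average over a translate of an interval -/
lemma bxi_int (p : ℝ → ℝ) (a b s ε : ℝ) (hab : a ≤ b) (hp : Continuous p) :
    ∫ x in Ico a b, mo ε p (x + s) =
      ((∫ y in (b + s - ε)..(b + s + ε), p y) - ∫ y in (a + s - ε)..(a + s + ε), p y) /
        (2 * ε) := by
  have hi : ∀ u v : ℝ, IntervalIntegrable p volume u v := fun u v => hp.intervalIntegrable u v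
  have h1 : ∫ x in Ico a b, mo ε p (x + s) = ∫ x in a..b, mo ε p (x + s) := by
    rw [intervalIntegral.integral_of_le hab, integral_Ico_eq_integral_Ioc]
  have h2 : ∫ x in a..b, mo ε p (x + s) =
      ((∫ x in a..b, p (x + (s + ε))) - ∫ x in a..b, p (x + (s - ε))) / (2 * ε) := by
    unfold mo
    rw [intervalIntegral.integral_div, intervalIntegral.integral_sub]
    · have e1 : ∀ x : ℝ, x + s + ε = x + (s + ε) := fun x => by ring
      have e2 : ∀ x : ℝ, x + s - ε = x + (s - ε) := fun x => by ring
      simp_rw [e1, e2]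
    · exact (by fun_prop : Continuous fun x => p (x + s + ε)).intervalIntegrable a b
    · exact (by fun_prop : Continuous fun x => p (x + s - ε)).intervalIntegrable a b
  rw [h1, h2, intervalIntegral.integral_comp_add_right, intervalIntegral.integral_comp_add_right]
  congr 1
  have e3 := intervalIntegral.integral_interval_sub_interval_comm (hi (a + (s + ε)) (b + (s + ε)))
    (hi (a + (s - ε)) (b + (s - ε))) (hi (a + (s + ε)) (a + (s - ε)))
  rw [e3, intervalIntegral.integral_symm (b + (s - ε)) (b + (s + ε)),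
    intervalIntegral.integral_symm (a + (s - ε)) (a + (s + ε))]
  have e4 : b + s - ε = b + (s - ε) := by ring
  have e5 : b + s + ε = b + (s + ε) := by ring
  have e6 : a + s - ε = a + (s - ε) := by ring
  have e7 : a + s + ε = a + (s + ε) := by ring
  rw [e4, e5, e6, e7]
  ring

lemma bxi_mono (p : ℝ → ℝ) (u ε : ℝ) (hm : Monotone p) (hp : Continuous p) (hε : 0 < ε) :
    2 * ε * p (u - ε) ≤ (∫ y in (u - ε)..(u + ε), p y) ∧
      (∫ y in (u - ε)..(u + ε), p y) ≤ 2 * ε * p (u + ε) := by
  have hi : IntervalIntegrable p volume (u - ε) (u + ε) := hp.intervalIntegrable _ _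
  have hle : u - ε ≤ u + ε := by linarith
  constructor
  · have h := intervalIntegral.integral_mono_on (f := fun _ => p (u - ε)) (g := p) hle
      (by simp) hi (fun x hx => hm hx.1)
    rw [intervalIntegral.integral_const, smul_eq_mul] at h
    have e : u + ε - (u - ε) = 2 * ε := by ring
    rw [e] at h
    exact h
  · have h := intervalIntegral.integral_mono_on (f := p) (g := fun _ => p (u + ε)) hle
      hi (by simp) (fun x hx => hm hx.2)
    rw [intervalIntegral.integral_const, smul_eq_mul] at h
    have e : u + ε - (u - ε) = 2 * ε := by ring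
    rw [e] at h
    exact h

theorem pf_V_BXI : V_BXI := by
  intro a b c d hab hcd
  have hpre : ∀ t, hbx t a b c d = (fun z : ℂ => (xi t z, z.im)) ⁻¹' (Ico a b ×ˢ Icc c d) := by
    intro t
    ext z
    constructor
    · rintro ⟨h1, h2, h3, h4⟩
      exact ⟨⟨h1, h2⟩, h3, h4⟩
    · rintro ⟨⟨h1, h2⟩, h3, h4⟩
      exact ⟨h1, h2, h3, h4⟩
  have hbm : MeasurableSet (Ico a b ×ˢ Icc c d) := measurableSet_Ico.prod measurableSet_Icc
  refine ⟨fun t => ⟨?_, ?_⟩, ?_⟩
  · rw [hpre]
    exact (bxi_mp t).measurable hbm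
  · rw [hpre, (bxi_mp t).measure_preimage hbm.nullMeasurableSet, Measure.prod_prod,
      Real.volume_Ico, Real.volume_Icc, ENNReal.ofReal_mul (by linarith)]
  intro p t t₀ ε H hm hp hε hc hd
  have hmc : Continuous (mo ε p) := by
    unfold mo
    fun_prop
  obtain ⟨F, hF⟩ : ∃ F : ℝ × ℝ → ℝ, F = fun q => mo ε p (q.1 + (t₀ - t) * q.2) := ⟨_, rfl⟩
  have hFc : Continuous F := by
    rw [hF]
    fun_prop
  have hcomp : (fun z : ℂ => mo ε p (xi t z)) = F ∘ (fun z : ℂ => (xi t₀ z, z.im)) := by
    funext z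
    rw [hF]
    show mo ε p (xi t z) = mo ε p (xi t₀ z + (t₀ - t) * z.im)
    congr 1
    unfold xi
    ring
  have hFint : IntegrableOn F (Ico a b ×ˢ Icc c d)
      ((volume : Measure ℝ).prod (volume : Measure ℝ)) := by
    have h1 : IntegrableOn F (Icc a b ×ˢ Icc c d)
        ((volume : Measure ℝ).prod (volume : Measure ℝ)) :=
      hFc.continuousOn.integrableOn_compact (isCompact_Icc.prod isCompact_Icc)
    exact h1.mono_set (prod_mono Ico_subset_Icc_self le_rfl)
  have hΨ := (bxi_mp t₀).restrict_preimage hbm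
  have hprod : ((volume : Measure ℝ).prod (volume : Measure ℝ)).restrict
      (Ico a b ×ˢ Icc c d) = ((volume : Measure ℝ).restrict (Ico a b)).prod
        ((volume : Measure ℝ).restrict (Icc c d)) := (Measure.prod_restrict _ _).symm
  have hFint' : Integrable F (((volume : Measure ℝ).restrict (Ico a b)).prod
      ((volume : Measure ℝ).restrict (Icc c d))) := by
    rw [← hprod]; exact hFint
  have hval : ∫ z in hbx t₀ a b c d, mo ε p (xi t z) =
      ∫ k in Icc c d, ∫ x in Ico a b, F (x, k) := by
    have h2 := integral_map hΨ.aemeasurable (f := F) (by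
      rw [hΨ.map_eq]; exact hFint.aestronglyMeasurable)
    rw [hΨ.map_eq, hprod, integral_prod_symm _ hFint'] at h2
    rw [h2, ← hpre]
    exact congrArg (fun f : ℂ → ℝ => ∫ z in hbx t₀ a b c d, f z) hcomp
  have hbd : ∀ k ∈ Icc c d,
      p (b - ε - |t₀ - t| * H) - p (a + ε + |t₀ - t| * H) ≤ ∫ x in Ico a b, F (x, k) ∧
        ∫ x in Ico a b, F (x, k) ≤
          p (b + ε + |t₀ - t| * H) - p (a - ε - |t₀ - t| * H) := by
    intro k hk
    have hk1 : |k| ≤ H := by
      have h1 := abs_le.1 hc
      have h2 := abs_le.1 hd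
      exact abs_le.2 ⟨by linarith [hk.1], by linarith [hk.2]⟩
    have hs : |(t₀ - t) * k| ≤ |t₀ - t| * H := by
      rw [abs_mul]
      exact mul_le_mul_of_nonneg_left hk1 (abs_nonneg _)
    have hs' := abs_le.1 hs
    have hF1 : ∫ x in Ico a b, F (x, k) = ∫ x in Ico a b, mo ε p (x + (t₀ - t) * k) := by
      rw [hF]
    rw [hF1, bxi_int p a b ((t₀ - t) * k) ε hab hp]
    obtain ⟨b1, b2⟩ := bxi_mono p (b + (t₀ - t) * k) ε hm hp hε
    obtain ⟨a1, a2⟩ := bxi_mono p (a + (t₀ - t) * k) ε hm hp hε
    have m1 : p (b - ε - |t₀ - t| * H) ≤ p (b + (t₀ - t) * k - ε) := hm (by linarith)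
    have m2 : p (a + (t₀ - t) * k + ε) ≤ p (a + ε + |t₀ - t| * H) := hm (by linarith)
    have m3 : p (b + (t₀ - t) * k + ε) ≤ p (b + ε + |t₀ - t| * H) := hm (by linarith)
    have m4 : p (a - ε - |t₀ - t| * H) ≤ p (a + (t₀ - t) * k - ε) := hm (by linarith)
    have h2ε : 0 < 2 * ε := by linarith
    constructor
    · rw [le_div_iff₀ h2ε]
      have q1 := mul_le_mul_of_nonneg_left m1 h2ε.le
      have q2 := mul_le_mul_of_nonneg_left m2 h2ε.le
      linarith
    · rw [div_le_iff₀ h2ε]
      have q1 := mul_le_mul_of_nonneg_left m3 h2ε.le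
      have q2 := mul_le_mul_of_nonneg_left m4 h2ε.le
      linarith
  have hGint : IntegrableOn (fun k => ∫ x in Ico a b, F (x, k)) (Icc c d) :=
    hFint'.integral_prod_right
  have hconst : ∀ m : ℝ, ∫ _ in Icc c d, m = (d - c) * m := by
    intro m
    rw [setIntegral_const, Real.volume_real_Icc_of_le hcd, smul_eq_mul]
  have hconstI : ∀ m : ℝ, IntegrableOn (fun _ : ℝ => m) (Icc c d) := by
    intro m
    exact integrableOn_const (by simp) (by simp)
  refine ⟨?_, ?_, ?_⟩
  · rw [hcomp, hpre]
    exact (hΨ.integrable_comp hFint.aestronglyMeasurable).2 hFint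
  · rw [hval, ← hconst]
    exact setIntegral_mono_on (hconstI _) hGint measurableSet_Icc fun k hk => (hbd k hk).1
  · rw [hval, ← hconst]
    exact setIntegral_mono_on hGint (hconstI _) measurableSet_Icc fun k hk => (hbd k hk).2

end Pool.Agent.H33.GD
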